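import Pool.Agent.EMS7.Hoef

/-! Croot–Sisask almost periodicity, in the form needed for Bogolyubov–Ruzsa. -/

open Finset
open scoped BigOperators Pointwise

namespace EMS7

variable {G : Type*} [AddCommGroup G] [Fintype G] [DecidableEq G]

/-- normalised count of `a ∈ B` with `x + a ∈ S`. -/
noncomputable def ff (B S : Finset G) (x : G) : ℝ :=
  ((B.filter fun a => x + a ∈ S).card : ℝ) / B.card

omit [Fintype G] in
lemma ff_nonneg (B S : Finset G) (x : G) : 0 ≤ ff B S x := by
  unfold ff; positivity

omit [Fintype G] in
lemma ff_le_one (B S : Finset G) (x : G) : ff B S x ≤ 1 := by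
  unfold ff
  rcases B.eq_empty_or_nonempty with h | h
  · simp [h]
  · rw [div_le_one (by exact_mod_cast h.card_pos)]
    exact_mod_cast Finset.card_filter_le _ _

/-- Almost periods: a large set `T` such that differences of `T` are almost periods of `ff`. -/
theorem almost_periods (B S : Finset G) (hB : B.Nonempty) (k : ℕ) (ε δ : ℝ) (hε : 0 ≤ ε)
    (hk : 0 < k) (hδ : 4 * Real.exp (-(2 * k * ε ^ 2)) ≤ δ) :
    ∃ T : Finset G, (B.card : ℝ) ^ k ≤ 2 * (Fintype.card G : ℝ) ^ k * (T.card : ℝ)
        / (Fintype.card G : ℝ) ∧
      ∀ t ∈ T, ∀ t' ∈ T, ((univ.filter fun x : G =>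
        2 * ε < |ff B S (x + (t - t')) - ff B S x|).card : ℝ)
          ≤ 2 * δ * (Fintype.card G : ℝ) := by
  classical
  have hN : (0 : ℝ) < Fintype.card G := by
    have : 0 < Fintype.card G := Fintype.card_pos_iff.2 ⟨hB.choose⟩
    exact_mod_cast this
  have hkr : (0 : ℝ) < k := by exact_mod_cast hk
  have hδ0 : 0 < δ := lt_of_lt_of_le (by positivity) hδ
  set N : ℝ := (Fintype.card G : ℝ) with hNdef
  set Ω := Fintype.piFinset (fun _ : Fin k => B) with hΩ
  -- bad relation
  set bad : G → (Fin k → G) → Prop := fun x a =>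
    ε * k < |((univ.filter fun i => x + a i ∈ S).card : ℝ) - k * ff B S x| with hbad
  have hΩc : (Ω.card : ℝ) = (B.card : ℝ) ^ k := by
    rw [hΩ, Fintype.card_piFinset]; simp
  -- for each x few bad a
  have h1 : ∀ x : G, ((Ω.filter fun a => bad x a).card : ℝ) ≤ δ / 2 * (B.card : ℝ) ^ k := by
    intro x
    have := hoeffding_count B hB (fun a => x + a ∈ S) k ε hε
    refine this.trans ?_
    refine mul_le_mul_of_nonneg_right ?_ (by positivity)
    linarith
  -- good a
  set Good := Ω.filter fun a => ((univ.filter fun x : G => bad x a).card : ℝ) ≤ δ * N with hGood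
  have hgc : (B.card : ℝ) ^ k ≤ 2 * Good.card := by
    -- double counting
    have hdc : ∑ a ∈ Ω, ((univ.filter fun x : G => bad x a).card : ℝ)
        = ∑ x : G, ((Ω.filter fun a => bad x a).card : ℝ) := by
      have e1 : ∀ a : Fin k → G, ((univ.filter fun x : G => bad x a).card : ℝ)
          = ∑ x : G, if bad x a then (1 : ℝ) else 0 := by
        intro a; rw [Finset.sum_boole]
      have e2 : ∀ x : G, ((Ω.filter fun a => bad x a).card : ℝ)
          = ∑ a ∈ Ω, if bad x a then (1 : ℝ) else 0 := by
        intro x; rw [Finset.sum_boole]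
      simp_rw [e1, e2]
      rw [Finset.sum_comm]
    have hle : ∑ a ∈ Ω, ((univ.filter fun x : G => bad x a).card : ℝ)
        ≤ N * (δ / 2 * (B.card : ℝ) ^ k) := by
      rw [hdc]
      calc _ ≤ ∑ x : G, (δ / 2 * (B.card : ℝ) ^ k) := Finset.sum_le_sum fun x _ => h1 x
        _ = N * (δ / 2 * (B.card : ℝ) ^ k) := by
          rw [Finset.sum_const, nsmul_eq_mul, card_univ]
    set Bd := Ω.filter fun a => ¬ (((univ.filter fun x : G => bad x a).card : ℝ) ≤ δ * N) with hBd
    have hlow : (Bd.card : ℝ) * (δ * N) ≤ ∑ a ∈ Ω, ((univ.filter fun x : G => bad x a).card : ℝ) := by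
      calc (Bd.card : ℝ) * (δ * N) = ∑ a ∈ Bd, δ * N := by
            rw [Finset.sum_const, nsmul_eq_mul]
        _ ≤ ∑ a ∈ Bd, ((univ.filter fun x : G => bad x a).card : ℝ) := by
            refine Finset.sum_le_sum fun a ha => ?_
            exact (not_le.1 (Finset.mem_filter.1 ha).2).le
        _ ≤ _ := Finset.sum_le_sum_of_subset_of_nonneg (Finset.filter_subset _ _)
            (fun _ _ _ => by positivity)
    have hBdc : (Bd.card : ℝ) ≤ (B.card : ℝ) ^ k / 2 := by
      have h2 := hlow.trans hle
      have hp : 0 < δ * N := by positivity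
      refine le_of_mul_le_mul_right ?_ hp
      calc (Bd.card : ℝ) * (δ * N) ≤ _ := h2
        _ = _ := by ring
    have hsplit : (Good.card : ℝ) + Bd.card = (B.card : ℝ) ^ k := by
      rw [← hΩc]
      exact_mod_cast Finset.card_filter_add_card_filter_not (s := Ω)
        (fun a => ((univ.filter fun x : G => bad x a).card : ℝ) ≤ δ * N)
    linarith
  -- choose b
  set TT : (Fin k → G) → Finset G := fun b => univ.filter fun t : G => (fun i => b i - t) ∈ Good
    with hTT
  have hsum : ∑ b : Fin k → G, ((TT b).card : ℝ) = N * Good.card := by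
    have e1 : ∀ b : Fin k → G, ((TT b).card : ℝ)
        = ∑ t : G, if (fun i => b i - t) ∈ Good then (1 : ℝ) else 0 := by
      intro b; rw [Finset.sum_boole]
    simp_rw [e1]
    rw [Finset.sum_comm]
    have e2 : ∀ t : G, (∑ b : Fin k → G, if (fun i => b i - t) ∈ Good then (1 : ℝ) else 0)
        = Good.card := by
      intro t
      have : (∑ b : Fin k → G, if (fun i => b i - t) ∈ Good then (1 : ℝ) else 0)
          = ∑ b : Fin k → G, if b ∈ Good then (1 : ℝ) else 0 := by
        refine Fintype.sum_equiv (Equiv.subRight (fun _ : Fin k => t)) _ _ fun b => ?_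
        rfl
      rw [this, Finset.sum_boole]
      congr 2
      ext b; simp
    simp_rw [e2]
    rw [Finset.sum_const, nsmul_eq_mul, card_univ]
  obtain ⟨b, hb⟩ : ∃ b : Fin k → G, N * Good.card / N ^ k ≤ ((TT b).card : ℝ) := by
    by_contra! hcon
    have hlt : ∑ b : Fin k → G, ((TT b).card : ℝ)
        < ∑ b : Fin k → G, (N * Good.card / N ^ k) :=
      Finset.sum_lt_sum_of_nonempty ⟨fun _ => hB.choose, Finset.mem_univ _⟩ fun b _ => hcon b
    rw [hsum, Finset.sum_const, nsmul_eq_mul, card_univ, Fintype.card_fun, Fintype.card_fin] at hlt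
    push_cast at hlt
    rw [← hNdef] at hlt
    have : N ^ k * (N * Good.card / N ^ k) = N * Good.card := by
      field_simp
    linarith
  refine ⟨TT b, ?_, ?_⟩
  · have h3 : N * Good.card ≤ N ^ k * ((TT b).card : ℝ) := by
      rw [div_le_iff₀ (by positivity)] at hb; linarith
    rw [le_div_iff₀ hN]
    nlinarith
  · -- almost periods
    set gb : G → ℝ := fun x => ((univ.filter fun i => x + b i ∈ S).card : ℝ) with hgb
    have key : ∀ t ∈ TT b, ((univ.filter fun x : G => ε * k < |gb x - k * ff B S (x + t)|).card : ℝ)
        ≤ δ * N := by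
      intro t ht
      have hg : (fun i => b i - t) ∈ Good := (Finset.mem_filter.1 ht).2
      have h4 := (Finset.mem_filter.1 hg).2
      refine le_trans (le_of_eq ?_) h4
      congr 1
      refine Finset.card_bij (fun x _ => x + t) ?_ ?_ ?_
      · intro x hx
        rw [Finset.mem_filter] at hx ⊢
        refine ⟨Finset.mem_univ _, ?_⟩
        simp only [hbad]
        have : ∀ i, x + t + (b i - t) = x + b i := fun i => by abel
        simp_rw [this]
        exact hx.2
      · intro x _ y _ h; exact add_right_cancel h
      · intro y hy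
        refine ⟨y - t, ?_, by abel⟩
        rw [Finset.mem_filter] at hy ⊢
        refine ⟨Finset.mem_univ _, ?_⟩
        have h5 := hy.2
        simp only [hbad] at h5
        have : ∀ i, y + (b i - t) = y - t + b i := fun i => by abel
        simp_rw [this] at h5
        rw [sub_add_cancel]
        exact h5
    intro t ht t' ht'
    have hcard : ((univ.filter fun x : G => 2 * ε < |ff B S (x + (t - t')) - ff B S x|).card : ℝ)
        = ((univ.filter fun x : G => 2 * ε < |ff B S (x + t) - ff B S (x + t')|).card : ℝ) := by
      congr 1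
      refine Finset.card_bij (fun x _ => x - t') ?_ ?_ ?_
      · intro x hx
        rw [Finset.mem_filter] at hx ⊢
        refine ⟨Finset.mem_univ _, ?_⟩
        have e1 : x - t' + t = x + (t - t') := by abel
        rw [e1, sub_add_cancel]; exact hx.2
      · intro x _ y _ h; exact sub_left_injective h
      · intro y hy
        refine ⟨y + t', ?_, by abel⟩
        rw [Finset.mem_filter] at hy ⊢
        refine ⟨Finset.mem_univ _, ?_⟩
        have e1 : y + t' + (t - t') = y + t := by abel
        rw [e1]; exact hy.2
    rw [hcard]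
    have hsub : (univ.filter fun x : G => 2 * ε < |ff B S (x + t) - ff B S (x + t')|)
        ⊆ (univ.filter fun x : G => ε * k < |gb x - k * ff B S (x + t)|)
          ∪ (univ.filter fun x : G => ε * k < |gb x - k * ff B S (x + t')|) := by
      intro x hx
      rw [Finset.mem_filter] at hx
      rw [Finset.mem_union, Finset.mem_filter, Finset.mem_filter]
      by_contra hcon
      push Not at hcon
      have h6 := hcon.1 (Finset.mem_univ _)
      have h7 := hcon.2 (Finset.mem_univ _)
      have h8 : k * |ff B S (x + t) - ff B S (x + t')| ≤ k * (2 * ε) := by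
        calc k * |ff B S (x + t) - ff B S (x + t')|
            = |(gb x - k * ff B S (x + t')) - (gb x - k * ff B S (x + t))| := by
              rw [← abs_of_pos hkr, ← abs_mul, abs_of_pos hkr]; congr 1; ring
          _ ≤ |gb x - k * ff B S (x + t')| + |gb x - k * ff B S (x + t)| := abs_sub _ _
          _ ≤ ε * k + ε * k := add_le_add h7 h6
          _ = _ := by ring
      have h9 := le_of_mul_le_mul_left h8 hkr
      linarith [hx.2]
    have hc := (Finset.card_le_card hsub).trans (Finset.card_union_le _ _)
    have hc' : ((univ.filter fun x : G => 2 * ε < |ff B S (x + t) - ff B S (x + t')|).card : ℝ)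
        ≤ ((univ.filter fun x : G => ε * k < |gb x - k * ff B S (x + t)|).card : ℝ)
          + ((univ.filter fun x : G => ε * k < |gb x - k * ff B S (x + t')|).card : ℝ) := by
      exact_mod_cast hc
    have := key t ht
    have := key t' ht'
    linarith

end EMS7
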