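import Mathlib

/-! Elementary Fourier analysis on a finite abelian group. -/

open Finset
open scoped BigOperators ComplexConjugate

namespace EMS7

variable {G : Type*} [AddCommGroup G] [Fintype G] [DecidableEq G]

lemma parseval (u : G → ℂ) :
    ∑ χ : AddChar G ℂ, ‖∑ z, u z * χ z‖ ^ 2 = (Fintype.card G : ℝ) * ∑ z, ‖u z‖ ^ 2 := by
  have h : ((∑ χ : AddChar G ℂ, ‖∑ z, u z * χ z‖ ^ 2 : ℝ) : ℂ)
      = ((Fintype.card G : ℝ) * ∑ z, ‖u z‖ ^ 2 : ℝ) := by
    push_cast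
    have e1 : ∀ χ : AddChar G ℂ, ((‖∑ z, u z * χ z‖ : ℝ) : ℂ) ^ 2
        = ∑ z, ∑ z', u z * conj (u z') * χ (z - z') := by
      intro χ
      rw [← Complex.mul_conj', map_sum, Finset.sum_mul_sum]
      refine Finset.sum_congr rfl fun z _ => Finset.sum_congr rfl fun z' _ => ?_
      rw [sub_eq_add_neg, AddChar.map_add_eq_mul, AddChar.map_neg_eq_conj, map_mul]
      ring
    simp_rw [e1]
    rw [Finset.sum_comm, Finset.mul_sum]
    refine Finset.sum_congr rfl fun z _ => ?_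
    rw [Finset.sum_comm]
    rw [Finset.sum_eq_single z]
    · rw [← Finset.mul_sum, AddChar.sum_apply_eq_ite, sub_self, if_pos rfl, Complex.mul_conj']
      ring
    · intro z' _ hz'
      rw [← Finset.mul_sum, AddChar.sum_apply_eq_ite, if_neg, mul_zero]
      rw [sub_eq_zero]; exact fun h => hz' h.symm
    · intro h; exact absurd (Finset.mem_univ z) h
  exact_mod_cast h

lemma inversion (f : G → ℂ) (x : G) :
    ∑ χ : AddChar G ℂ, (∑ z, f z * χ (-z)) * χ x = (Fintype.card G : ℂ) * f x := by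
  have e1 : ∀ χ : AddChar G ℂ, (∑ z, f z * χ (-z)) * χ x = ∑ z, f z * χ (x - z) := by
    intro χ
    rw [Finset.sum_mul]
    refine Finset.sum_congr rfl fun z _ => ?_
    rw [sub_eq_add_neg, AddChar.map_add_eq_mul]; ring
  simp_rw [e1]
  rw [Finset.sum_comm, Finset.sum_eq_single x]
  · rw [← Finset.mul_sum, AddChar.sum_apply_eq_ite, sub_self, if_pos rfl]; ring
  · intro z _ hz
    rw [← Finset.mul_sum, AddChar.sum_apply_eq_ite, if_neg, mul_zero]
    rw [sub_eq_zero]; exact fun h => hz h.symm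
  · intro h; exact absurd (Finset.mem_univ x) h

lemma parseval_neg (u : G → ℂ) :
    ∑ χ : AddChar G ℂ, ‖∑ z, u z * χ (-z)‖ ^ 2 = (Fintype.card G : ℝ) * ∑ z, ‖u z‖ ^ 2 := by
  have e1 : ∀ χ : AddChar G ℂ, ∑ z, u z * χ (-z) = ∑ z, u (-z) * χ z := by
    intro χ
    exact Fintype.sum_equiv (Equiv.neg G) _ _ fun z => by simp
  simp_rw [e1]
  rw [parseval (fun z => u (-z))]
  congr 1
  exact Fintype.sum_equiv (Equiv.neg G) _ _ fun z => by simp

/-- averaging over differences of `T`. -/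
noncomputable def AA (T : Finset G) (h : G → ℂ) : G → ℂ :=
  fun z => (∑ t ∈ T, ∑ t' ∈ T, h (z + (t - t'))) / (T.card : ℂ) ^ 2

omit [Fintype G] [DecidableEq G] in
lemma AA_sub (T : Finset G) (h g : G → ℂ) (z : G) :
    AA T (fun x => h x - g x) z = AA T h z - AA T g z := by
  unfold AA
  simp_rw [Finset.sum_sub_distrib]
  rw [sub_div]

omit [Fintype G] [DecidableEq G] in
/-- averaging does not increase the sup over translates of the `ℓ¹(B)` norm. -/
lemma AA_bound (T B : Finset G) (hT : T.Nonempty) (v : G → ℂ) (M : ℝ)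
    (hv : ∀ y, ∑ x ∈ B, ‖v (x + y)‖ ≤ M) (y : G) : ∑ x ∈ B, ‖AA T v (x + y)‖ ≤ M := by
  have hTc : (0 : ℝ) < T.card := by exact_mod_cast hT.card_pos
  have h1 : ∀ x, ‖AA T v (x + y)‖ ≤ (∑ t ∈ T, ∑ t' ∈ T, ‖v (x + (y + (t - t')))‖) / (T.card : ℝ) ^ 2 := by
    intro x
    unfold AA
    rw [norm_div, norm_pow, Complex.norm_natCast]
    refine div_le_div_of_nonneg_right ?_ (by positivity)
    refine (norm_sum_le _ _).trans (Finset.sum_le_sum fun t _ => ?_)
    refine (norm_sum_le _ _).trans (Finset.sum_le_sum fun t' _ => ?_)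
    rw [add_assoc]
  calc ∑ x ∈ B, ‖AA T v (x + y)‖
      ≤ ∑ x ∈ B, (∑ t ∈ T, ∑ t' ∈ T, ‖v (x + (y + (t - t')))‖) / (T.card : ℝ) ^ 2 :=
        Finset.sum_le_sum fun x _ => h1 x
    _ = (∑ t ∈ T, ∑ t' ∈ T, ∑ x ∈ B, ‖v (x + (y + (t - t')))‖) / (T.card : ℝ) ^ 2 := by
        rw [← Finset.sum_div, Finset.sum_comm]
        congr 1
        refine Finset.sum_congr rfl fun t _ => ?_
        rw [Finset.sum_comm]
    _ ≤ (∑ t ∈ T, ∑ t' ∈ T, M) / (T.card : ℝ) ^ 2 := by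
        refine div_le_div_of_nonneg_right ?_ (by positivity)
        exact Finset.sum_le_sum fun t _ => Finset.sum_le_sum fun t' _ => hv _
    _ = M := by
        rw [Finset.sum_const, Finset.sum_const, nsmul_eq_mul, nsmul_eq_mul]
        field_simp

omit [Fintype G] [DecidableEq G] in
lemma AA_iter (T B : Finset G) (hT : T.Nonempty) (f : G → ℂ) (M : ℝ)
    (hf : ∀ y, ∑ x ∈ B, ‖AA T f (x + y) - f (x + y)‖ ≤ M) (l : ℕ) (y : G) :
    ∑ x ∈ B, ‖(AA T)^[l] f (x + y) - f (x + y)‖ ≤ l * M := by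
  induction l generalizing y with
  | zero => simp
  | succ l ih =>
    have h1 : ∀ x, (AA T)^[l + 1] f x - f x
        = AA T (fun z => (AA T)^[l] f z - f z) x + (AA T f x - f x) := by
      intro x
      rw [AA_sub, Function.iterate_succ_apply']; ring
    calc ∑ x ∈ B, ‖(AA T)^[l + 1] f (x + y) - f (x + y)‖
        ≤ ∑ x ∈ B, (‖AA T (fun z => (AA T)^[l] f z - f z) (x + y)‖ + ‖AA T f (x + y) - f (x + y)‖) := by
          refine Finset.sum_le_sum fun x _ => ?_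
          rw [h1]; exact norm_add_le _ _
      _ = ∑ x ∈ B, ‖AA T (fun z => (AA T)^[l] f z - f z) (x + y)‖
          + ∑ x ∈ B, ‖AA T f (x + y) - f (x + y)‖ := Finset.sum_add_distrib
      _ ≤ l * M + M := add_le_add (AA_bound T B hT _ _ ih y) (hf y)
      _ = ((l + 1 : ℕ) : ℝ) * M := by push_cast; ring

/-- the multiplier of `AA T` on the character `χ`. -/
noncomputable def ww (T : Finset G) (χ : AddChar G ℂ) : ℝ := ‖∑ t ∈ T, χ t‖ ^ 2 / (T.card : ℝ) ^ 2

omit [DecidableEq G] in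
lemma AA_char (T : Finset G) (a : AddChar G ℂ → ℂ) (x : G) :
    AA T (fun z => ∑ χ : AddChar G ℂ, a χ * χ z) x = ∑ χ : AddChar G ℂ, a χ * (ww T χ : ℂ) * χ x := by
  unfold AA
  have e1 : ∑ t ∈ T, ∑ t' ∈ T, ∑ χ : AddChar G ℂ, a χ * χ (x + (t - t'))
      = ∑ χ : AddChar G ℂ, ∑ t ∈ T, ∑ t' ∈ T, a χ * χ (x + (t - t')) := by
    rw [Finset.sum_comm (s := univ)]
    refine Finset.sum_congr rfl fun t _ => ?_
    rw [Finset.sum_comm]
  rw [e1, Finset.sum_div]
  refine Finset.sum_congr rfl fun χ _ => ?_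
  have e2 : ∑ t ∈ T, ∑ t' ∈ T, a χ * χ (x + (t - t'))
      = a χ * χ x * ((∑ t ∈ T, χ t) * conj (∑ t ∈ T, χ t)) := by
    rw [map_sum, Finset.sum_mul_sum, Finset.mul_sum]
    refine Finset.sum_congr rfl fun t _ => ?_
    rw [Finset.mul_sum]
    refine Finset.sum_congr rfl fun t' _ => ?_
    rw [AddChar.map_add_eq_mul, sub_eq_add_neg, AddChar.map_add_eq_mul, AddChar.map_neg_eq_conj]
    ring
  rw [e2, Complex.mul_conj', ww]
  push_cast
  ring

omit [DecidableEq G] in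
lemma AA_iter_char (T : Finset G) (a : AddChar G ℂ → ℂ) (l : ℕ) (x : G) :
    (AA T)^[l] (fun z => ∑ χ : AddChar G ℂ, a χ * χ z) x
      = ∑ χ : AddChar G ℂ, a χ * (ww T χ : ℂ) ^ l * χ x := by
  induction l generalizing x with
  | zero => simp
  | succ l ih =>
    rw [Function.iterate_succ_apply']
    have : (AA T)^[l] (fun z => ∑ χ : AddChar G ℂ, a χ * χ z)
        = fun x => ∑ χ : AddChar G ℂ, (a χ * (ww T χ : ℂ) ^ l) * χ x := funext ih
    rw [this, AA_char]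
    refine Finset.sum_congr rfl fun χ _ => ?_
    ring

omit [DecidableEq G] in
lemma ww_le_one (T : Finset G) (χ : AddChar G ℂ) : ww T χ ≤ 1 := by
  unfold ww
  rcases T.eq_empty_or_nonempty with h | h
  · simp [h]
  · have hTc : (0 : ℝ) < T.card := by exact_mod_cast h.card_pos
    rw [div_le_one (by positivity)]
    refine pow_le_pow_left₀ (norm_nonneg _) ?_ 2
    refine (norm_sum_le _ _).trans ?_
    simp

omit [Fintype G] [DecidableEq G] in
lemma ww_nonneg (T : Finset G) (χ : AddChar G ℂ) : 0 ≤ ww T χ := by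
  unfold ww; positivity

/-- The main analytic estimate. -/
theorem fourier_main (T B : Finset G) (hB : B.Nonempty) (f : G → ℂ) (hf : ∀ z, ‖f z‖ ≤ 1) (l : ℕ)
    (y : G) (κ : ℝ) (hκ0 : 0 ≤ κ) (hκ : ∀ χ : AddChar G ℂ, ww T χ ^ l * ‖χ y - 1‖ ≤ κ) :
    ‖(∑ x ∈ B, (AA T)^[l] f (x + y)) - ∑ x ∈ B, (AA T)^[l] f x‖
      ≤ κ * B.card * Real.sqrt ((Fintype.card G : ℝ) / B.card) := by
  have hN : (0 : ℝ) < Fintype.card G := by
    have : 0 < Fintype.card G := Fintype.card_pos_iff.2 ⟨hB.choose⟩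
    exact_mod_cast this
  have hBc : (0 : ℝ) < B.card := by exact_mod_cast hB.card_pos
  set N : ℝ := (Fintype.card G : ℝ) with hNdef
  have hNC : (N : ℂ) ≠ 0 := by exact_mod_cast hN.ne'
  set c : AddChar G ℂ → ℂ := fun χ => (∑ z, f z * χ (-z)) / (N : ℂ) with hc
  have hinv : f = fun z => ∑ χ : AddChar G ℂ, c χ * χ z := by
    funext x
    have := inversion f x
    have e : ∑ χ : AddChar G ℂ, c χ * χ x
        = (∑ χ : AddChar G ℂ, (∑ z, f z * χ (-z)) * χ x) / (N : ℂ) := by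
      rw [Finset.sum_div]
      refine Finset.sum_congr rfl fun χ _ => ?_
      simp only [hc]; ring
    rw [e, this, hNdef]
    have h2 : ((Fintype.card G : ℝ) : ℂ) = (Fintype.card G : ℂ) := by push_cast; rfl
    rw [h2, mul_div_cancel_left₀]
    rw [← h2]; exact hNC
  have hF : ∀ x, (AA T)^[l] f x = ∑ χ : AddChar G ℂ, c χ * (ww T χ : ℂ) ^ l * χ x := by
    intro x
    conv_lhs => rw [hinv]
    exact AA_iter_char T c l x
  set m : AddChar G ℂ → ℂ := fun χ => ∑ x ∈ B, χ x with hm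
  have e1 : (∑ x ∈ B, (AA T)^[l] f (x + y)) - ∑ x ∈ B, (AA T)^[l] f x
      = ∑ χ : AddChar G ℂ, c χ * (ww T χ : ℂ) ^ l * (χ y - 1) * m χ := by
    rw [← Finset.sum_sub_distrib]
    simp_rw [hF]
    have e2 : ∀ x ∈ B, (∑ χ : AddChar G ℂ, c χ * (ww T χ : ℂ) ^ l * χ (x + y))
        - ∑ χ : AddChar G ℂ, c χ * (ww T χ : ℂ) ^ l * χ x
        = ∑ χ : AddChar G ℂ, c χ * (ww T χ : ℂ) ^ l * (χ y - 1) * χ x := by
      intro x _
      rw [← Finset.sum_sub_distrib]
      refine Finset.sum_congr rfl fun χ _ => ?_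
      rw [AddChar.map_add_eq_mul]; ring
    rw [Finset.sum_congr rfl e2, Finset.sum_comm]
    refine Finset.sum_congr rfl fun χ _ => ?_
    rw [hm, Finset.mul_sum]
  rw [e1]
  have h1 : ‖∑ χ : AddChar G ℂ, c χ * (ww T χ : ℂ) ^ l * (χ y - 1) * m χ‖
      ≤ κ * ∑ χ : AddChar G ℂ, ‖c χ‖ * ‖m χ‖ := by
    refine (norm_sum_le _ _).trans ?_
    rw [Finset.mul_sum]
    refine Finset.sum_le_sum fun χ _ => ?_
    rw [norm_mul, norm_mul, norm_mul, norm_pow, Complex.norm_real,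
      Real.norm_of_nonneg (ww_nonneg T χ)]
    have := hκ χ
    calc ‖c χ‖ * ww T χ ^ l * ‖χ y - 1‖ * ‖m χ‖ = (ww T χ ^ l * ‖χ y - 1‖) * (‖c χ‖ * ‖m χ‖) := by ring
      _ ≤ κ * (‖c χ‖ * ‖m χ‖) := mul_le_mul_of_nonneg_right this (by positivity)
  have h2 : ∑ χ : AddChar G ℂ, ‖c χ‖ ^ 2 ≤ 1 := by
    have e3 : ∀ χ : AddChar G ℂ, ‖c χ‖ ^ 2 = ‖∑ z, f z * χ (-z)‖ ^ 2 / N ^ 2 := by
      intro χ
      simp only [hc]
      rw [norm_div, Complex.norm_real, Real.norm_of_nonneg hN.le, div_pow]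
    simp_rw [e3]
    rw [← Finset.sum_div, parseval_neg, ← hNdef, div_le_one (by positivity), sq]
    refine mul_le_mul_of_nonneg_left ?_ hN.le
    calc ∑ z, ‖f z‖ ^ 2 ≤ ∑ _z : G, (1 : ℝ) := by
          refine Finset.sum_le_sum fun z _ => ?_
          exact pow_le_one₀ (norm_nonneg _) (hf z)
      _ = N := by rw [Finset.sum_const, nsmul_eq_mul, card_univ, mul_one]
  have h3 : ∑ χ : AddChar G ℂ, ‖m χ‖ ^ 2 = N * B.card := by
    have := parseval (G := G) (fun z => if z ∈ B then (1 : ℂ) else 0)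
    have e4 : ∀ χ : AddChar G ℂ, (∑ z, (if z ∈ B then (1 : ℂ) else 0) * χ z) = m χ := by
      intro χ
      simp only [hm, ite_mul, one_mul, zero_mul]
      rw [Finset.sum_ite_mem, Finset.univ_inter]
    simp_rw [e4] at this
    rw [this]
    congr 1
    have e5 : ∀ z : G, ‖(if z ∈ B then (1 : ℂ) else 0)‖ ^ 2 = if z ∈ B then (1 : ℝ) else 0 := by
      intro z; split_ifs <;> simp
    simp_rw [e5]
    rw [Finset.sum_boole]
    congr 2
    ext z; simp
  have h4 : ∑ χ : AddChar G ℂ, ‖c χ‖ * ‖m χ‖ ≤ Real.sqrt (N * B.card) := by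
    refine Real.le_sqrt_of_sq_le ?_
    refine (Finset.sum_mul_sq_le_sq_mul_sq _ _ _).trans ?_
    rw [h3]
    have h6 : 0 ≤ N * B.card := mul_nonneg hN.le hBc.le
    exact (mul_le_mul_of_nonneg_right h2 h6).trans (le_of_eq (one_mul _))
  calc _ ≤ κ * ∑ χ : AddChar G ℂ, ‖c χ‖ * ‖m χ‖ := h1
    _ ≤ κ * Real.sqrt (N * B.card) := mul_le_mul_of_nonneg_left h4 hκ0
    _ = κ * B.card * Real.sqrt (N / B.card) := by
        have h5 : N * B.card = (B.card : ℝ) ^ 2 * (N / B.card) := by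
          rw [sq, mul_assoc, mul_div_cancel₀ _ hBc.ne', mul_comm]
        rw [h5, Real.sqrt_mul (sq_nonneg _), Real.sqrt_sq hBc.le]; ring

end EMS7
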