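import Pool.Agent.EMS7.Chang
import Pool.Agent.EMS7.CS
import Pool.Agent.EMS7.Four

/-! The Bogolyubov-Ruzsa lemma (Croot-Sisask, Sanders) in a finite abelian group. -/

open Finset
open scoped BigOperators ComplexConjugate Pointwise

namespace EMS7

variable {G : Type*} [AddCommGroup G] [Fintype G] [DecidableEq G]

/-- Bogolyubov-Ruzsa: a Bohr set of small rank inside `2B-2B`. -/
theorem bogolyubov (B : Finset G) (al : ℝ) (hal : 0 < al)
    (hB : al * (Fintype.card G : ℝ) ≤ (B.card : ℝ)) (l k : ℕ)
    (hl : Real.log (16 / al) ≤ l) (hk : 128 * (l : ℝ) ^ 2 * Real.log (64 * l / al) ≤ k) :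
    ∃ s : Finset (AddChar G ℂ), (s.card : ℝ) ≤ 8 * (k * Real.log (1 / al) + 1) ∧
      ∀ y : G, (∀ χ ∈ s, ‖χ y - 1‖ ≤ Real.sqrt al / (8 * max (s.card : ℝ) 1)) →
        y ∈ B + B - B - B := by
  classical
  have hNn : 0 < Fintype.card G := Fintype.card_pos_iff.2 ⟨0⟩
  have hN : (0 : ℝ) < Fintype.card G := by exact_mod_cast hNn
  set N : ℝ := (Fintype.card G : ℝ) with hNdef
  have hBc : (0 : ℝ) < B.card := lt_of_lt_of_le (by positivity) hB
  have hBne : B.Nonempty := Finset.card_pos.1 (by exact_mod_cast hBc)
  have hBN : (B.card : ℝ) ≤ N := by rw [hNdef]; exact_mod_cast Finset.card_le_univ B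
  have hal1 : al ≤ 1 := by
    by_contra hcon
    push Not at hcon
    nlinarith
  -- l is positive
  have hlog16 : (1 : ℝ) < Real.log (16 / al) := by
    rw [Real.lt_log_iff_exp_lt (by positivity)]
    calc Real.exp 1 < 16 := by have := Real.exp_one_lt_d9; linarith
      _ ≤ 16 / al := by rw [le_div_iff₀ hal]; nlinarith
  have hl1 : (1 : ℝ) < l := lt_of_lt_of_le hlog16 hl
  have hl0 : (0 : ℝ) < l := by linarith
  have hlog64 : 0 < Real.log (64 * l / al) := by
    refine Real.log_pos ?_
    rw [lt_div_iff₀ hal]; nlinarith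
  have hk0 : (0 : ℝ) < k := lt_of_lt_of_le (by positivity) hk
  have hkn : 0 < k := by exact_mod_cast hk0
  -- parameters
  set ε : ℝ := 1 / (16 * l) with hε
  set δ : ℝ := al / (16 * l) with hδ
  have hεpos : 0 < ε := by positivity
  have hδle : 4 * Real.exp (-(2 * k * ε ^ 2)) ≤ δ := by
    have h1 : Real.log (64 * l / al) ≤ 2 * k * ε ^ 2 := by
      have : 2 * (k : ℝ) * ε ^ 2 = k / (128 * (l : ℝ) ^ 2) := by rw [hε]; field_simp; norm_num
      rw [this, le_div_iff₀ (by positivity)]
      linarith
    have h2 : Real.exp (-(2 * k * ε ^ 2)) ≤ al / (64 * l) := by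
      have h3 : al / (64 * l) = Real.exp (-Real.log (64 * l / al)) := by
        rw [Real.exp_neg, Real.exp_log (by positivity), inv_div]
      rw [h3]
      exact Real.exp_le_exp.2 (by linarith)
    calc 4 * Real.exp (-(2 * k * ε ^ 2)) ≤ 4 * (al / (64 * l)) := by linarith
      _ = δ := by rw [hδ]; field_simp; norm_num
  set S := B + B with hS
  obtain ⟨T, hT1, hT2⟩ := almost_periods B S hBne k ε δ hεpos.le hkn hδle
  rw [← hNdef] at hT1 hT2
  have hTc : (0 : ℝ) < T.card := by
    by_contra hcon
    have h0 : (T.card : ℝ) = 0 := le_antisymm (not_lt.1 hcon) (by positivity)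
    rw [h0] at hT1
    have : (0 : ℝ) < (B.card : ℝ) ^ k := by positivity
    simp at hT1
    linarith
  have hTne : T.Nonempty := Finset.card_pos.1 (by exact_mod_cast hTc)
  -- ratio
  have hratio : N / T.card ≤ 2 * (1 / al) ^ k := by
    rw [div_le_iff₀ hTc]
    have h1 : (al * N) ^ k ≤ (B.card : ℝ) ^ k := pow_le_pow_left₀ (by positivity) hB k
    have h2 := h1.trans hT1
    rw [le_div_iff₀ hN, mul_pow] at h2
    have hNk : 0 < N ^ k := by positivity
    have h3 : al ^ k * N ≤ 2 * T.card := by
      refine le_of_mul_le_mul_right ?_ hNk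
      calc al ^ k * N * N ^ k = al ^ k * N ^ k * N := by ring
        _ ≤ _ := h2
        _ = 2 * (T.card : ℝ) * N ^ k := by ring
    have hak : 0 < al ^ k := by positivity
    have h4 : (1 / al) ^ k = 1 / al ^ k := by rw [div_pow, one_pow]
    rw [h4]
    calc N = al ^ k * N / al ^ k := by field_simp
      _ ≤ 2 * T.card / al ^ k := div_le_div_of_nonneg_right h3 hak.le
      _ = _ := by ring
  obtain ⟨s, hs1, hs2⟩ := chang T hTne
  refine ⟨s, ?_, ?_⟩
  · refine hs1.trans ?_
    refine mul_le_mul_of_nonneg_left ?_ (by norm_num)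
    have h1 := Real.log_le_log (by positivity) hratio
    rw [Real.log_mul (by norm_num) (by positivity), Real.log_pow] at h1
    have h2 : Real.log 2 ≤ 1 := by
      have := Real.log_two_lt_d9; linarith
    linarith
  · intro y hy
    set ρ : ℝ := Real.sqrt al / (8 * max (s.card : ℝ) 1) with hρ
    -- the function f
    set f : G → ℂ := fun x => (ff B S x : ℂ) with hf
    have hfn : ∀ z, ‖f z‖ ≤ 1 := by
      intro z
      simp only [hf]
      rw [Complex.norm_real, Real.norm_of_nonneg (ff_nonneg B S z)]
      exact ff_le_one B S z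
    have hfB : ∀ x ∈ B, f x = 1 := by
      intro x hx
      simp only [hf, ff]
      rw [Finset.filter_true_of_mem]
      · rw [div_self hBc.ne']; simp
      · intro a ha; exact Finset.add_mem_add hx ha
    -- one step
    have hstep : ∀ y, ∑ x ∈ B, ‖AA T f (x + y) - f (x + y)‖ ≤ 2 * ε * B.card + 2 * δ * N := by
      intro y
      have hone : ∀ t ∈ T, ∀ t' ∈ T, ∑ x ∈ B, ‖f (x + y + (t - t')) - f (x + y)‖
          ≤ 2 * ε * B.card + 2 * δ * N := by
        intro t ht t' ht'
        have h1 : ∀ x, ‖f (x + y + (t - t')) - f (x + y)‖ = |ff B S (x + y + (t - t')) - ff B S (x + y)| := by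
          intro x
          simp only [hf]
          rw [← Complex.ofReal_sub, Complex.norm_real, Real.norm_eq_abs]
        have h2 : ∀ x, |ff B S (x + y + (t - t')) - ff B S (x + y)|
            ≤ 2 * ε + if 2 * ε < |ff B S (x + y + (t - t')) - ff B S (x + y)| then (1 : ℝ) else 0 := by
          intro x
          split_ifs with h
          · have : |ff B S (x + y + (t - t')) - ff B S (x + y)| ≤ 1 := by
              rw [abs_le]
              have := ff_nonneg B S (x + y + (t - t'))
              have := ff_nonneg B S (x + y)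
              have := ff_le_one B S (x + y + (t - t'))
              have := ff_le_one B S (x + y)
              constructor <;> linarith
            linarith
          · linarith
        calc ∑ x ∈ B, ‖f (x + y + (t - t')) - f (x + y)‖
            ≤ ∑ x ∈ B, (2 * ε + if 2 * ε < |ff B S (x + y + (t - t')) - ff B S (x + y)| then (1 : ℝ) else 0) :=
              Finset.sum_le_sum fun x _ => by rw [h1]; exact h2 x
          _ = 2 * ε * B.card + ((B.filter fun x =>
                2 * ε < |ff B S (x + y + (t - t')) - ff B S (x + y)|).card : ℝ) := by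
              rw [Finset.sum_add_distrib, Finset.sum_const, nsmul_eq_mul, Finset.sum_boole]
              ring
          _ ≤ 2 * ε * B.card + 2 * δ * N := by
              refine add_le_add le_rfl (le_trans ?_ (hT2 t ht t' ht'))
              have : (B.filter fun x => 2 * ε < |ff B S (x + y + (t - t')) - ff B S (x + y)|).card
                  ≤ (univ.filter fun x : G => 2 * ε < |ff B S (x + (t - t')) - ff B S x|).card := by
                refine Finset.card_le_card_of_injOn (fun x => x + y) ?_ ?_
                · intro x hx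
                  have hx2 := (Finset.mem_filter.1 (Finset.mem_coe.1 hx)).2
                  exact Finset.mem_coe.2 (Finset.mem_filter.2 ⟨Finset.mem_univ _, hx2⟩)
                · intro a _ b _ h; exact add_right_cancel h
              exact_mod_cast this
      have hpt : ∀ x, ‖AA T f (x + y) - f (x + y)‖
          ≤ (∑ t ∈ T, ∑ t' ∈ T, ‖f (x + y + (t - t')) - f (x + y)‖) / (T.card : ℝ) ^ 2 := by
        intro x
        have e : AA T f (x + y) - f (x + y)
            = (∑ t ∈ T, ∑ t' ∈ T, (f (x + y + (t - t')) - f (x + y))) / (T.card : ℂ) ^ 2 := by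
          unfold AA
          simp_rw [Finset.sum_sub_distrib]
          rw [Finset.sum_const, Finset.sum_const, nsmul_eq_mul, nsmul_eq_mul, sub_div]
          congr 1
          have : (T.card : ℂ) ≠ 0 := by exact_mod_cast hTc.ne'
          field_simp
        rw [e, norm_div, norm_pow, Complex.norm_natCast]
        refine div_le_div_of_nonneg_right ?_ (by positivity)
        refine (norm_sum_le _ _).trans (Finset.sum_le_sum fun t _ => ?_)
        exact norm_sum_le _ _
      calc ∑ x ∈ B, ‖AA T f (x + y) - f (x + y)‖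
          ≤ ∑ x ∈ B, (∑ t ∈ T, ∑ t' ∈ T, ‖f (x + y + (t - t')) - f (x + y)‖) / (T.card : ℝ) ^ 2 :=
            Finset.sum_le_sum fun x _ => hpt x
        _ = (∑ t ∈ T, ∑ t' ∈ T, ∑ x ∈ B, ‖f (x + y + (t - t')) - f (x + y)‖) / (T.card : ℝ) ^ 2 := by
            rw [← Finset.sum_div, Finset.sum_comm]
            congr 1
            refine Finset.sum_congr rfl fun t _ => ?_
            rw [Finset.sum_comm]
        _ ≤ (∑ t ∈ T, ∑ t' ∈ T, (2 * ε * B.card + 2 * δ * N)) / (T.card : ℝ) ^ 2 := by
            refine div_le_div_of_nonneg_right ?_ (by positivity)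
            exact Finset.sum_le_sum fun t ht => Finset.sum_le_sum fun t' ht' => hone t ht t' ht'
        _ = _ := by
            rw [Finset.sum_const, Finset.sum_const, nsmul_eq_mul, nsmul_eq_mul]
            field_simp
    have hiter : ∀ y, ∑ x ∈ B, ‖(AA T)^[l] f (x + y) - f (x + y)‖ ≤ B.card / 4 := by
      intro y
      refine (AA_iter T B hTne f _ hstep l y).trans ?_
      have e1 : (l : ℝ) * (2 * ε * B.card) = B.card / 8 := by rw [hε]; field_simp; norm_num
      have e2 : (l : ℝ) * (2 * δ * N) = al * N / 8 := by rw [hδ]; field_simp; norm_num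
      rw [mul_add, e1, e2]
      linarith
    -- the Fourier step
    have hκ : ∀ χ : AddChar G ℂ, ww T χ ^ l * ‖χ y - 1‖ ≤ Real.sqrt al / 8 := by
      intro χ
      by_cases hχ : (T.card : ℝ) / 2 < ‖∑ x ∈ T, χ x‖
      · have h1 := hs2 χ hχ y ρ hy
        have h2 : (s.card : ℝ) * ρ ≤ Real.sqrt al / 8 := by
          rw [hρ]
          have hm : (s.card : ℝ) ≤ max (s.card : ℝ) 1 := le_max_left _ _
          have hm0 : (0 : ℝ) < max (s.card : ℝ) 1 := lt_of_lt_of_le one_pos (le_max_right _ _)
          rw [mul_div_assoc', div_le_div_iff₀ (by positivity) (by norm_num)]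
          have := Real.sqrt_nonneg al
          nlinarith
        have h3 : ww T χ ^ l ≤ 1 := pow_le_one₀ (ww_nonneg T χ) (ww_le_one T χ)
        have h4 : 0 ≤ ww T χ ^ l := pow_nonneg (ww_nonneg T χ) l
        calc ww T χ ^ l * ‖χ y - 1‖ ≤ 1 * ‖χ y - 1‖ :=
              mul_le_mul_of_nonneg_right h3 (norm_nonneg _)
          _ ≤ _ := by linarith
      · push Not at hχ
        have h1 : ww T χ ≤ 1 / 4 := by
          unfold ww
          rw [div_le_iff₀ (by positivity)]
          have := pow_le_pow_left₀ (norm_nonneg _) hχ 2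
          linarith
        have h2 : ww T χ ^ l ≤ (1 / 4) ^ l := pow_le_pow_left₀ (ww_nonneg T χ) h1 l
        have h3 : ((1 : ℝ) / 4) ^ l ≤ al / 16 := by
          have h4 : ((1 : ℝ) / 4) ^ l ≤ Real.exp (-1) ^ l := by
            refine pow_le_pow_left₀ (by norm_num) ?_ l
            rw [Real.exp_neg, one_div]
            refine inv_anti₀ (Real.exp_pos 1) ?_
            have := Real.exp_one_lt_d9; linarith
          have h5 : Real.exp (-1) ^ l = Real.exp (-(l : ℝ)) := by
            rw [← Real.exp_nat_mul]; congr 1; ring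
          have h6 : Real.exp (-(l : ℝ)) ≤ Real.exp (-Real.log (16 / al)) :=
            Real.exp_le_exp.2 (by linarith)
          rw [Real.exp_neg (Real.log (16 / al)), Real.exp_log (by positivity), inv_div] at h6
          linarith
        have h4 : ‖χ y - 1‖ ≤ 2 := by
          refine (norm_sub_le _ _).trans ?_
          rw [AddChar.norm_apply]; norm_num
        have h5 : al ≤ Real.sqrt al := by
          refine Real.le_sqrt_of_sq_le ?_
          nlinarith
        calc ww T χ ^ l * ‖χ y - 1‖ ≤ (al / 16) * 2 := by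
              refine mul_le_mul (h2.trans h3) h4 (norm_nonneg _) (by positivity)
          _ ≤ _ := by linarith
    have hmain := fourier_main T B hBne f hfn l y (Real.sqrt al / 8) (by positivity) hκ
    have hsq : Real.sqrt al / 8 * B.card * Real.sqrt (N / B.card) ≤ B.card / 8 := by
      have h1 : Real.sqrt al * Real.sqrt (N / B.card) ≤ 1 := by
        rw [← Real.sqrt_mul hal.le]
        refine Real.sqrt_le_one.2 ?_
        rw [mul_div_assoc', div_le_one hBc]
        exact hB
      calc Real.sqrt al / 8 * B.card * Real.sqrt (N / B.card)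
          = (Real.sqrt al * Real.sqrt (N / B.card)) * B.card / 8 := by ring
        _ ≤ 1 * B.card / 8 := by
            refine div_le_div_of_nonneg_right ?_ (by norm_num)
            exact mul_le_mul_of_nonneg_right h1 hBc.le
        _ = _ := by ring
    have hmain2 := hmain.trans hsq
    -- conclude
    have hne : ∑ x ∈ B, f (x + y) ≠ 0 := by
      intro h0
      have hA : ‖∑ x ∈ B, (AA T)^[l] f (x + y)‖ ≤ B.card / 4 := by
        have := hiter y
        calc ‖∑ x ∈ B, (AA T)^[l] f (x + y)‖
            = ‖∑ x ∈ B, ((AA T)^[l] f (x + y) - f (x + y))‖ := by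
              rw [Finset.sum_sub_distrib, h0, sub_zero]
          _ ≤ _ := (norm_sum_le _ _).trans this
      have hC : ‖(∑ x ∈ B, (AA T)^[l] f x) - (B.card : ℂ)‖ ≤ B.card / 4 := by
        have := hiter 0
        simp only [add_zero] at this
        calc ‖(∑ x ∈ B, (AA T)^[l] f x) - (B.card : ℂ)‖
            = ‖∑ x ∈ B, ((AA T)^[l] f x - f x)‖ := by
              rw [Finset.sum_sub_distrib, Finset.sum_congr rfl hfB]; simp
          _ ≤ _ := (norm_sum_le _ _).trans this
      have hsum : ‖(B.card : ℂ)‖ ≤ 5 * B.card / 8 := by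
        have e : (B.card : ℂ) = (∑ x ∈ B, (AA T)^[l] f (x + y))
            - ((∑ x ∈ B, (AA T)^[l] f (x + y)) - ∑ x ∈ B, (AA T)^[l] f x)
            - ((∑ x ∈ B, (AA T)^[l] f x) - (B.card : ℂ)) := by ring
        rw [e]
        refine (norm_sub_le _ _).trans ?_
        have := norm_sub_le (∑ x ∈ B, (AA T)^[l] f (x + y))
          ((∑ x ∈ B, (AA T)^[l] f (x + y)) - ∑ x ∈ B, (AA T)^[l] f x)
        linarith
      rw [Complex.norm_natCast] at hsum
      linarith
    obtain ⟨x, hx, hx0⟩ := Finset.exists_ne_zero_of_sum_ne_zero hne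
    have hff : (B.filter fun a => x + y + a ∈ S).Nonempty := by
      rw [Finset.nonempty_iff_ne_empty]
      intro h0
      refine hx0 ?_
      simp only [hf, ff, h0]; simp
    obtain ⟨a, ha⟩ := hff
    rw [Finset.mem_filter] at ha
    rw [Finset.mem_sub]
    refine ⟨x + y + a - a, ?_, x, hx, ?_⟩
    · exact Finset.sub_mem_sub ha.2 ha.1
    · abel

end EMS7
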