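import Mathlib

/-! Chang's lemma at level 1/2 for finite abelian groups. -/

open Finset
open scoped BigOperators ComplexConjugate

namespace EMS7

variable {G : Type*} [AddCommGroup G] [Fintype G]

/-- `exp (y/2) ≤ cosh (1/2) + y sinh (1/2)` on `[-1,1]`. -/
lemma exp_half_le {y : ℝ} (h1 : -1 ≤ y) (h2 : y ≤ 1) :
    Real.exp (y / 2) ≤ Real.cosh (1 / 2) + Real.sinh (1 / 2) * y := by
  have hc := convexOn_exp.2 (Set.mem_univ (-(1 / 2) : ℝ)) (Set.mem_univ (1 / 2 : ℝ))
    (show (0 : ℝ) ≤ (1 - y) / 2 by linarith) (show (0 : ℝ) ≤ (1 + y) / 2 by linarith) (by ring)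
  simp only [smul_eq_mul] at hc
  have e : (1 - y) / 2 * -(1 / 2) + (1 + y) / 2 * (1 / 2) = y / 2 := by ring
  rw [e] at hc
  rw [Real.cosh_eq, Real.sinh_eq]
  refine hc.trans (le_of_eq ?_)
  ring

/-- The size of a dissociated set of characters with large coefficients. -/
lemma card_le_of_dissociated (T : Finset G) (hT : T.Nonempty) (Γ : Finset (AddChar G ℂ))
    (hΓ : AddDissociated (Γ : Set (AddChar G ℂ)))
    (hbig : ∀ χ ∈ Γ, (T.card : ℝ) / 2 < ‖∑ x ∈ T, χ x‖) :
    (Γ.card : ℝ) ≤ 8 * Real.log ((Fintype.card G : ℝ) / T.card) := by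
  classical
  have hTc : (0 : ℝ) < T.card := by exact_mod_cast hT.card_pos
  have hGc : (0 : ℝ) < Fintype.card G := by
    have : 0 < Fintype.card G := Fintype.card_pos_iff.2 ⟨hT.choose⟩
    exact_mod_cast this
  -- unimodular coefficients
  have hex : ∀ χ : AddChar G ℂ, ∃ c : ℂ, ‖c‖ ≤ 1 ∧ (c * ∑ x ∈ T, χ x) = (‖∑ x ∈ T, χ x‖ : ℝ) := by
    intro χ
    by_cases h0 : (∑ x ∈ T, χ x) = 0
    · exact ⟨0, by simp, by simp [h0]⟩
    · refine ⟨conj (∑ x ∈ T, χ x) / (‖∑ x ∈ T, χ x‖ : ℝ), ?_, ?_⟩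
      · rw [norm_div, RCLike.norm_conj, Complex.norm_real, norm_norm]
        rw [div_self (by simpa using h0)]
      · have hn : ((‖∑ x ∈ T, χ x‖ : ℝ) : ℂ) ≠ 0 := by
          exact_mod_cast (norm_ne_zero_iff.2 h0)
        rw [div_mul_eq_mul_div, div_eq_iff hn, mul_comm, Complex.mul_conj,
          Complex.normSq_eq_norm_sq]
        push_cast; ring
  choose c hc1 hc2 using hex
  set S : ℝ := Real.sinh (1 / 2) with hS
  set C : ℝ := Real.cosh (1 / 2) with hC
  have hSpos : 0 < S := Real.sinh_pos_iff.2 (by norm_num)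
  set g : G → ℝ := fun x => ∑ χ ∈ Γ, (c χ * χ x).re with hg
  set cc : AddChar G ℂ → ℝ := fun χ => if χ ∈ Γ then C else 1 with hcc
  set dd : AddChar G ℂ → ℂ := fun χ => if χ ∈ Γ then (S : ℂ) * c χ else 0 with hdd
  have hdis : AddDissociated {ψ | dd ψ ≠ 0} := by
    refine hΓ.subset ?_
    intro ψ hψ
    by_contra hn
    exact hψ (by simp only [hdd]; rw [if_neg (by simpa using hn)])
  have hrand := hdis.randomisation cc dd
  -- pointwise
  have hpt : ∀ x : G, Real.exp (g x / 2) ≤ ∏ ψ, (cc ψ + (dd ψ * ψ x).re) := by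
    intro x
    have e1 : ∏ ψ, (cc ψ + (dd ψ * ψ x).re) = ∏ ψ ∈ Γ, (C + S * (c ψ * ψ x).re) := by
      rw [← Finset.prod_subset (Finset.subset_univ Γ)]
      · refine Finset.prod_congr rfl fun ψ hψ => ?_
        simp only [hcc, hdd, if_pos hψ]
        rw [mul_assoc, Complex.re_ofReal_mul]
      · intro ψ _ hψ
        simp only [hcc, hdd, if_neg hψ]
        simp
    rw [e1]
    have e2 : Real.exp (g x / 2) = ∏ ψ ∈ Γ, Real.exp ((c ψ * ψ x).re / 2) := by
      rw [← Real.exp_sum, hg]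
      simp only
      rw [Finset.sum_div]
    rw [e2]
    refine Finset.prod_le_prod (fun _ _ => (Real.exp_pos _).le) fun ψ _ => ?_
    have hn : ‖c ψ * ψ x‖ ≤ 1 := by
      rw [norm_mul, AddChar.norm_apply, mul_one]; exact hc1 ψ
    have h1 := Complex.abs_re_le_norm (c ψ * ψ x)
    exact exp_half_le (by linarith [neg_abs_le (c ψ * ψ x).re]) (by linarith [le_abs_self (c ψ * ψ x).re])
  have hprod : ∏ ψ, cc ψ = C ^ Γ.card := by
    rw [← Finset.prod_subset (Finset.subset_univ Γ)]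
    · rw [Finset.prod_congr rfl (fun ψ hψ => by simp only [hcc, if_pos hψ] : ∀ ψ ∈ Γ, cc ψ = C)]
      rw [Finset.prod_const]
    · intro ψ _ hψ; simp only [hcc, if_neg hψ]
  have hCle : C ≤ Real.exp (1 / 8) := by
    refine (Real.cosh_le_exp_half_sq _).trans (le_of_eq ?_)
    congr 1; norm_num
  -- upper bound of the sum over T
  have hup : ∑ x ∈ T, Real.exp (g x / 2) ≤ (Fintype.card G : ℝ) * Real.exp (Γ.card / 8) := by
    calc ∑ x ∈ T, Real.exp (g x / 2) ≤ ∑ x, Real.exp (g x / 2) :=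
          Finset.sum_le_sum_of_subset_of_nonneg (Finset.subset_univ _) (fun _ _ _ => (Real.exp_pos _).le)
      _ ≤ ∑ x, ∏ ψ, (cc ψ + (dd ψ * ψ x).re) := Finset.sum_le_sum fun x _ => hpt x
      _ = (Fintype.card G : ℝ) * ∏ ψ, cc ψ := by
          rw [← hrand, Fintype.expect_eq_sum_div_card]
          field_simp
      _ = (Fintype.card G : ℝ) * C ^ Γ.card := by rw [hprod]
      _ ≤ (Fintype.card G : ℝ) * Real.exp (1 / 8) ^ Γ.card := by
          refine mul_le_mul_of_nonneg_left ?_ hGc.le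
          exact pow_le_pow_left₀ (Real.cosh_pos _).le hCle _
      _ = (Fintype.card G : ℝ) * Real.exp (Γ.card / 8) := by
          rw [← Real.exp_nat_mul]; congr 2; ring
  -- lower bound
  have hsumg : (Γ.card : ℝ) * (T.card / 2) ≤ ∑ x ∈ T, g x := by
    have : ∑ x ∈ T, g x = ∑ χ ∈ Γ, ‖∑ x ∈ T, χ x‖ := by
      simp only [hg]
      rw [Finset.sum_comm]
      refine Finset.sum_congr rfl fun χ _ => ?_
      rw [← Complex.re_sum, ← Finset.mul_sum, hc2 χ, Complex.ofReal_re]
    rw [this]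
    calc (Γ.card : ℝ) * (T.card / 2) = ∑ χ ∈ Γ, (T.card : ℝ) / 2 := by
          rw [Finset.sum_const, nsmul_eq_mul]
      _ ≤ _ := Finset.sum_le_sum fun χ hχ => (hbig χ hχ).le
  have hjen : (T.card : ℝ) * Real.exp (Γ.card / 4) ≤ ∑ x ∈ T, Real.exp (g x / 2) := by
    have hj := (convexOn_exp).map_sum_le (t := T) (w := fun _ => (1 : ℝ) / T.card)
      (p := fun x => g x / 2) (fun _ _ => by positivity)
      (by rw [Finset.sum_const, nsmul_eq_mul]; field_simp) (fun _ _ => Set.mem_univ _)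
    simp only [smul_eq_mul] at hj
    rw [← Finset.mul_sum, ← Finset.mul_sum, ← Finset.sum_div] at hj
    have h3 : (Γ.card : ℝ) / 4 ≤ 1 / (T.card : ℝ) * ((∑ x ∈ T, g x) / 2) := by
      rw [one_div, ← div_eq_inv_mul, le_div_iff₀ hTc]
      linarith
    have h4 := (Real.exp_le_exp.2 h3).trans hj
    rw [one_div, ← div_eq_inv_mul, le_div_iff₀ hTc] at h4
    linarith
  have hfin := hjen.trans hup
  -- take logarithms
  have h5 : Real.exp (Γ.card / 8) ≤ (Fintype.card G : ℝ) / T.card := by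
    rw [le_div_iff₀ hTc]
    have h6 : Real.exp ((Γ.card : ℝ) / 4) = Real.exp (Γ.card / 8) * Real.exp (Γ.card / 8) := by
      rw [← Real.exp_add]; congr 1; ring
    rw [h6] at hfin
    have hp := Real.exp_pos ((Γ.card : ℝ) / 8)
    have : (Real.exp ((Γ.card : ℝ) / 8) * T.card) * Real.exp ((Γ.card : ℝ) / 8)
        ≤ (Fintype.card G : ℝ) * Real.exp ((Γ.card : ℝ) / 8) := by nlinarith
    exact le_of_mul_le_mul_right this hp
  have h7 := Real.log_le_log (Real.exp_pos _) h5
  rw [Real.log_exp] at h7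
  linarith

/-- Chang's lemma at level `1/2`. -/
theorem chang (T : Finset G) (hT : T.Nonempty) :
    ∃ s : Finset (AddChar G ℂ), (s.card : ℝ) ≤ 8 * Real.log ((Fintype.card G : ℝ) / T.card) ∧
      ∀ χ : AddChar G ℂ, (T.card : ℝ) / 2 < ‖∑ x ∈ T, χ x‖ →
        ∀ (y : G) (ρ : ℝ), (∀ γ ∈ s, ‖γ y - 1‖ ≤ ρ) → ‖χ y - 1‖ ≤ s.card * ρ := by
  classical
  set Spec : Finset (AddChar G ℂ) := Finset.univ.filter fun χ => (T.card : ℝ) / 2 < ‖∑ x ∈ T, χ x‖
    with hSpec
  have hTc : (0 : ℝ) < T.card := by exact_mod_cast hT.card_pos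
  have hlog : 0 ≤ 8 * Real.log ((Fintype.card G : ℝ) / T.card) := by
    refine mul_nonneg (by norm_num) (Real.log_nonneg ?_)
    rw [le_div_iff₀ hTc, one_mul]
    exact_mod_cast Finset.card_le_univ T
  obtain ⟨s, -, hs2, hs3⟩ := Finset.exists_subset_addSpan_card_le_of_forall_addDissociated
    (s := Spec) (d := ⌊8 * Real.log ((Fintype.card G : ℝ) / T.card)⌋₊) (by
      intro s' hs' hd
      refine Nat.le_floor ?_
      refine card_le_of_dissociated T hT s' hd fun χ hχ => ?_
      exact (Finset.mem_filter.1 (hs' hχ)).2)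
  refine ⟨s, ?_, ?_⟩
  · exact (Nat.cast_le.2 hs2).trans (Nat.floor_le hlog)
  · intro χ hχ y ρ hy
    have hmem : χ ∈ Finset.addSpan s := hs3 (Finset.mem_filter.2 ⟨Finset.mem_univ _, hχ⟩)
    obtain ⟨ε, hε, hsum⟩ := Finset.mem_addSpan.1 hmem
    rw [← hsum]
    -- general claim on subsets
    have key : ∀ u : Finset (AddChar G ℂ), u ⊆ s →
        ‖(∑ a ∈ u, ε a • a) y - 1‖ ≤ u.card * ρ := by
      intro u
      induction u using Finset.induction_on with
      | empty => intro _; simp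
      | insert a u ha ih =>
        intro hu
        have hu' : u ⊆ s := (Finset.subset_insert a u).trans hu
        have has : a ∈ s := hu (Finset.mem_insert_self a u)
        rw [Finset.sum_insert ha, Finset.card_insert_of_notMem ha, AddChar.add_apply]
        have h1 : ‖(ε a • a) y - 1‖ ≤ ρ := by
          have hρ : ‖a y - 1‖ ≤ ρ := hy a has
          rcases hε a with h | h | h
          · rw [h]
            have : ((-1 : ℤ) • a) y = conj (a y) := by
              rw [neg_smul, one_smul, AddChar.neg_apply, AddChar.map_neg_eq_conj]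
            rw [this]
            have : conj (a y) - 1 = conj (a y - 1) := by simp
            rw [this, RCLike.norm_conj]; exact hρ
          · rw [h]; simp; exact (norm_nonneg _).trans hρ
          · rw [h]; simpa using hρ
        have h2 := ih hu'
        have h3 : (ε a • a) y * (∑ a ∈ u, ε a • a) y - 1
            = (ε a • a) y * ((∑ a ∈ u, ε a • a) y - 1) + ((ε a • a) y - 1) := by ring
        rw [h3]
        refine (norm_add_le _ _).trans ?_
        rw [norm_mul, AddChar.norm_apply, one_mul, Nat.cast_add, Nat.cast_one]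
        linarith
    exact key s (Finset.Subset.refl s)

end EMS7
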