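import Mathlib

/-! Hoeffding counting for samples from a finite set. -/

open Finset
open scoped BigOperators

namespace EMS7

open MeasureTheory ProbabilityTheory in
/-- Hoeffding's lemma for a Bernoulli variable. -/
lemma bernoulli_mgf {p : ℝ} (h0 : 0 ≤ p) (h1 : p ≤ 1) (t : ℝ) :
    p * Real.exp (t * (1 - p)) + (1 - p) * Real.exp (t * (0 - p)) ≤ Real.exp (t ^ 2 / 8) := by
  classical
  set μ : Measure Bool := ENNReal.ofReal p • Measure.dirac true
    + ENNReal.ofReal (1 - p) • Measure.dirac false with hμ
  have hprob : IsProbabilityMeasure μ := by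
    refine ⟨?_⟩
    simp only [hμ, Measure.add_apply, Measure.smul_apply, Measure.dirac_apply' _ MeasurableSet.univ,
      smul_eq_mul, Set.indicator_univ, Pi.one_apply, mul_one]
    rw [← ENNReal.ofReal_add h0 (by linarith)]
    simp
  have hint : ∀ f : Bool → ℝ, ∫ ω, f ω ∂μ = p * f true + (1 - p) * f false := by
    intro f
    have hi : ∀ (b : Bool) (c : ℝ), Integrable f (ENNReal.ofReal c • Measure.dirac b) := by
      intro b c
      exact (integrable_dirac (by simp)).smul_measure ENNReal.ofReal_ne_top
    rw [hμ, integral_add_measure (hi _ _) (hi _ _), integral_smul_measure, integral_smul_measure,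
      integral_dirac, integral_dirac, ENNReal.toReal_ofReal h0,
      ENNReal.toReal_ofReal (by linarith), smul_eq_mul, smul_eq_mul]
  set X : Bool → ℝ := fun b => if b then 1 else 0 with hX
  have hsub := hasSubgaussianMGF_of_mem_Icc (μ := μ) (X := X) (a := 0) (b := 1)
    (measurable_of_countable X).aemeasurable
    (Filter.Eventually.of_forall fun b => by cases b <;> simp [hX])
  have hm := hsub.mgf_le t
  rw [mgf, hint, hint] at hm
  simp only [hX] at hm
  norm_num at hm
  refine le_trans (le_of_eq ?_) (hm.trans (le_of_eq ?_))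
  · ring_nf
  · congr 1; ring

/-- Exponential moment count. -/
lemma exp_count {β : Type*} [DecidableEq β] (B : Finset β) (hB : B.Nonempty) (P : β → Prop)
    [DecidablePred P] (k : ℕ) (t : ℝ) :
    ∑ a ∈ Fintype.piFinset (fun _ : Fin k => B),
      Real.exp (t * (((univ.filter fun i => P (a i)).card : ℝ)
        - k * (((B.filter P).card : ℝ) / B.card)))
      ≤ (B.card : ℝ) ^ k * Real.exp (k * t ^ 2 / 8) := by
  classical
  set p : ℝ := ((B.filter P).card : ℝ) / B.card with hp
  have hBc : (0 : ℝ) < B.card := by exact_mod_cast hB.card_pos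
  have hp0 : 0 ≤ p := by positivity
  have hp1 : p ≤ 1 := by
    rw [hp, div_le_one hBc]; exact_mod_cast Finset.card_filter_le _ _
  have e1 : ∀ a : Fin k → β, Real.exp (t * (((univ.filter fun i => P (a i)).card : ℝ) - k * p))
      = ∏ i : Fin k, Real.exp (t * ((if P (a i) then (1 : ℝ) else 0) - p)) := by
    intro a
    rw [← Real.exp_sum]
    congr 1
    rw [← Finset.mul_sum, Finset.sum_sub_distrib, Finset.sum_const, card_univ, Fintype.card_fin,
      nsmul_eq_mul, Finset.sum_boole]
  simp_rw [e1]
  rw [Finset.sum_prod_piFinset B (fun _ b => Real.exp (t * ((if P b then (1 : ℝ) else 0) - p)))]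
  rw [Finset.prod_const, card_univ, Fintype.card_fin]
  have e2 : ∑ b ∈ B, Real.exp (t * ((if P b then (1 : ℝ) else 0) - p))
      = B.card * (p * Real.exp (t * (1 - p)) + (1 - p) * Real.exp (t * (0 - p))) := by
    rw [← Finset.sum_filter_add_sum_filter_not B P]
    have h1 : ∑ b ∈ B.filter P, Real.exp (t * ((if P b then (1 : ℝ) else 0) - p))
        = (B.filter P).card * Real.exp (t * (1 - p)) := by
      rw [Finset.sum_congr rfl (g := fun _ => Real.exp (t * (1 - p))), Finset.sum_const,
        nsmul_eq_mul]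
      intro b hb
      rw [if_pos (Finset.mem_filter.1 hb).2]
    have h2 : ∑ b ∈ B.filter (fun b => ¬ P b), Real.exp (t * ((if P b then (1 : ℝ) else 0) - p))
        = (B.filter (fun b => ¬ P b)).card * Real.exp (t * (0 - p)) := by
      rw [Finset.sum_congr rfl (g := fun _ => Real.exp (t * (0 - p))), Finset.sum_const,
        nsmul_eq_mul]
      intro b hb
      rw [if_neg (Finset.mem_filter.1 hb).2]
    have h3 : ((B.filter (fun b => ¬ P b)).card : ℝ) = B.card - (B.filter P).card := by
      have := Finset.card_filter_add_card_filter_not (s := B) P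
      have : ((B.filter P).card : ℝ) + ((B.filter (fun b => ¬ P b)).card : ℝ) = B.card := by
        exact_mod_cast this
      linarith
    rw [h1, h2, h3]
    have h4 : ((B.filter P).card : ℝ) = B.card * p := by rw [hp]; field_simp
    rw [h4]; ring
  rw [e2, mul_pow]
  refine mul_le_mul_of_nonneg_left ?_ (by positivity)
  have hb := bernoulli_mgf hp0 hp1 t
  calc (p * Real.exp (t * (1 - p)) + (1 - p) * Real.exp (t * (0 - p))) ^ k
      ≤ Real.exp (t ^ 2 / 8) ^ k := by
        refine pow_le_pow_left₀ ?_ hb k
        have := Real.exp_pos (t * (1 - p)); have := Real.exp_pos (t * (0 - p))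
        have : 0 ≤ 1 - p := by linarith
        positivity
    _ = Real.exp (k * t ^ 2 / 8) := by rw [← Real.exp_nat_mul]; congr 1; ring

/-- Hoeffding's inequality for `k` samples from `B`, counting form. -/
theorem hoeffding_count {β : Type*} [DecidableEq β] (B : Finset β) (hB : B.Nonempty) (P : β → Prop)
    [DecidablePred P] (k : ℕ) (ε : ℝ) (hε : 0 ≤ ε) :
    (((Fintype.piFinset (fun _ : Fin k => B)).filter fun a =>
      ε * k < |((univ.filter fun i => P (a i)).card : ℝ)
        - k * (((B.filter P).card : ℝ) / B.card)|).card : ℝ)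
      ≤ 2 * Real.exp (-(2 * k * ε ^ 2)) * (B.card : ℝ) ^ k := by
  classical
  set Ω := Fintype.piFinset (fun _ : Fin k => B) with hΩ
  set Y : (Fin k → β) → ℝ := fun a => ((univ.filter fun i => P (a i)).card : ℝ)
        - k * (((B.filter P).card : ℝ) / B.card) with hY
  have one : ∀ t : ℝ, ∑ a ∈ Ω, Real.exp (t * Y a) ≤ (B.card : ℝ) ^ k * Real.exp (k * t ^ 2 / 8) :=
    fun t => exp_count B hB P k t
  have tail : ∀ s : ℝ, (s = 1 ∨ s = -1) →
      ((Ω.filter fun a => ε * k < s * Y a).card : ℝ)
        ≤ Real.exp (-(2 * k * ε ^ 2)) * (B.card : ℝ) ^ k := by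
    intro s hs
    have h1 := one (4 * ε * s)
    have h2 : ((Ω.filter fun a => ε * k < s * Y a).card : ℝ) * Real.exp (4 * ε * (ε * k))
        ≤ ∑ a ∈ Ω, Real.exp (4 * ε * s * Y a) := by
      calc ((Ω.filter fun a => ε * k < s * Y a).card : ℝ) * Real.exp (4 * ε * (ε * k))
          = ∑ a ∈ Ω.filter (fun a => ε * k < s * Y a), Real.exp (4 * ε * (ε * k)) := by
            rw [Finset.sum_const, nsmul_eq_mul]
        _ ≤ ∑ a ∈ Ω.filter (fun a => ε * k < s * Y a), Real.exp (4 * ε * s * Y a) := by
            refine Finset.sum_le_sum fun a ha => Real.exp_le_exp.2 ?_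
            have := (Finset.mem_filter.1 ha).2
            nlinarith
        _ ≤ _ := Finset.sum_le_sum_of_subset_of_nonneg (Finset.filter_subset _ _)
            (fun _ _ _ => (Real.exp_pos _).le)
    have h3 := h2.trans h1
    have hs2 : s ^ 2 = 1 := by rcases hs with h | h <;> rw [h] <;> norm_num
    have e : Real.exp (k * (4 * ε * s) ^ 2 / 8)
        = Real.exp (-(2 * k * ε ^ 2)) * Real.exp (4 * ε * (ε * k)) := by
      rw [← Real.exp_add]; congr 1
      rw [mul_pow, hs2]; ring
    rw [e] at h3
    have hp := Real.exp_pos (4 * ε * (ε * k))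
    refine le_of_mul_le_mul_right ?_ hp
    calc _ ≤ _ := h3
      _ = _ := by ring
  have hsub : (Ω.filter fun a => ε * k < |Y a|)
      ⊆ (Ω.filter fun a => ε * k < 1 * Y a) ∪ (Ω.filter fun a => ε * k < -1 * Y a) := by
    intro a ha
    rw [Finset.mem_filter] at ha
    rw [Finset.mem_union, Finset.mem_filter, Finset.mem_filter]
    rcases lt_abs.1 ha.2 with h | h
    · left; exact ⟨ha.1, by linarith⟩
    · right; exact ⟨ha.1, by linarith⟩
  have hc := (Finset.card_le_card hsub).trans (Finset.card_union_le _ _)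
  have hc' : ((Ω.filter fun a => ε * k < |Y a|).card : ℝ)
      ≤ ((Ω.filter fun a => ε * k < 1 * Y a).card : ℝ)
        + ((Ω.filter fun a => ε * k < -1 * Y a).card : ℝ) := by exact_mod_cast hc
  have t1 := tail 1 (Or.inl rfl)
  have t2 := tail (-1) (Or.inr rfl)
  linarith

end EMS7
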